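import Pool.Agent.L0h19.QE.Stm

/-! Module LOB of the project QE (helper19): lower bound of the number of the solutions. -/

set_option autoImplicit false

namespace Pool.Agent.L0h83.QE

open Finset Pool.Agent.L0h19.QE
open Pool.Agent.L0h87.LE (ee odds)

theorem card_odds (N : ℕ) : (odds N).card = (N + 1) / 2 := by
  induction N with
  | zero => rfl
  | succ N ih =>
    have h : odds (N + 1) = if (N + 1) % 2 = 1 then insert (N + 1) (odds N) else odds N := by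
      unfold odds
      rw [← Finset.insert_Icc_right_eq_Icc_add_one (by omega : 1 ≤ N + 1), Finset.filter_insert]
    rw [h]
    split_ifs with h1
    · rw [card_insert_of_notMem, ih]
      · omega
      · unfold odds
        simp
    · rw [ih]
      omega

theorem t_LOB : S_LOB := by
  intro hR N hN
  have h1 := hR N (fun _ _ => 1) (fun _ _ => 1)
  obtain ⟨X, hX⟩ : ∃ X : ℝ, X = G2 a8 N 0 (fun _ _ => 1) := ⟨_, rfl⟩
  have h2 : X = ∑ n ∈ range (4 * N ^ 2 + 1), rp (fun _ _ => 1) N n ^ 2 := by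
    have e1 : (![(fun _ _ => (1 : ℝ) : Fin 4 → ℕ → ℝ) 0, (fun _ _ => (1 : ℝ) : Fin 4 → ℕ → ℝ) 1,
        (fun _ _ => (1 : ℝ) : Fin 4 → ℕ → ℝ) 2, (fun _ _ => (1 : ℝ) : Fin 4 → ℕ → ℝ) 3,
        (fun _ _ => (1 : ℝ) : Fin 4 → ℕ → ℝ) 0, (fun _ _ => (1 : ℝ) : Fin 4 → ℕ → ℝ) 1,
        (fun _ _ => (1 : ℝ) : Fin 4 → ℕ → ℝ) 2, (fun _ _ => (1 : ℝ) : Fin 4 → ℕ → ℝ) 3] :
        Fin 8 → ℕ → ℝ) = fun _ _ => 1 := by
      funext i
      fin_cases i <;> rfl
    rw [e1] at h1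
    rw [hX, h1]
    refine sum_congr rfl fun n _ => ?_
    rw [pow_two]
  have h3 : ∑ n ∈ range (4 * N ^ 2 + 1), rp (fun _ _ => 1) N n = ((odds N).card : ℝ) ^ 4 := by
    unfold rp
    rw [Finset.sum_fiberwise_of_maps_to (g := fun m : Fin 4 → ℕ => ∑ i, m i ^ 2)]
    · rw [sum_congr rfl fun m _ => prod_const_one, sum_const, Fintype.card_piFinset_const]
      rw [nsmul_eq_mul, mul_one]
      push_cast
      rfl
    · intro m hm
      rw [mem_range, Nat.lt_succ_iff]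
      have h4 : ∀ i, m i ^ 2 ≤ N ^ 2 := by
        intro i
        have h5 := Fintype.mem_piFinset.1 hm i
        unfold odds at h5
        have h6 := (mem_Icc.1 (mem_filter.1 h5).1).2
        exact Nat.pow_le_pow_left h6 2
      calc ∑ i, m i ^ 2 ≤ ∑ _i : Fin 4, N ^ 2 := sum_le_sum fun i _ => h4 i
        _ = 4 * N ^ 2 := by
          rw [sum_const, card_univ, Fintype.card_fin, smul_eq_mul]
  have h4 : (((odds N).card : ℝ) ^ 4) ^ 2 ≤ (4 * (N : ℝ) ^ 2 + 1) * X := by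
    rw [← h3, h2]
    have := sq_sum_le_card_mul_sum_sq (s := range (4 * N ^ 2 + 1))
      (f := fun n => rp (fun _ _ => 1) N n)
    rw [card_range] at this
    push_cast at this
    exact this
  have h5 : (N : ℝ) / 2 ≤ ((odds N).card : ℝ) := by
    rw [card_odds]
    have : N ≤ 2 * ((N + 1) / 2) := by omega
    have h6 : (N : ℝ) ≤ 2 * (((N + 1) / 2 : ℕ) : ℝ) := by exact_mod_cast this
    linarith
  have h6 : ((N : ℝ) / 2) ^ 8 ≤ (((odds N).card : ℝ) ^ 4) ^ 2 := by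
    rw [← pow_mul]
    exact pow_le_pow_left₀ (by positivity) h5 8
  have hX0 : 0 ≤ X := by
    rw [h2]
    exact sum_nonneg fun n _ => sq_nonneg _
  have hN1 : (1 : ℝ) ≤ N := by exact_mod_cast hN
  have h7 : (4 * (N : ℝ) ^ 2 + 1) * X ≤ 5 * (N : ℝ) ^ 2 * X := by
    refine mul_le_mul_of_nonneg_right ?_ hX0
    nlinarith
  have h8 : ((N : ℝ) / 2) ^ 8 ≤ 5 * (N : ℝ) ^ 2 * X := h6.trans (h4.trans h7)
  rw [← hX]
  by_contra hlt
  push Not at hlt
  have h9 : 5 * (N : ℝ) ^ 2 * X < 5 * (N : ℝ) ^ 2 * ((N : ℝ) ^ 6 / 1280) :=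
    mul_lt_mul_of_pos_left hlt (by positivity)
  have h10 : 5 * (N : ℝ) ^ 2 * ((N : ℝ) ^ 6 / 1280) = ((N : ℝ) / 2) ^ 8 := by ring
  linarith

end Pool.Agent.L0h83.QE
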