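import Pool.Agent.L0h19.QE.Stm
import Pool.Agent.L0h41.LE.SML

/-! Module SMQ of the project QE (helper19): partial summation, quadratic phases. Adapted from
`Pool/Agent/L0h41/LE/SML.lean`. -/

set_option autoImplicit false

namespace Pool.Agent.L0h83.QE

open Finset Pool.Agent.L0h19.QE
open Pool.Agent.L0h87.LE (ee odds)
open Pool.Agent.L0h41.LE (ee_add norm_ee norm_ee_sub odds_succ)

theorem t_SMQ : S_SMQ := by
  intro f N E α hE hF
  obtain ⟨F, hFd⟩ : ∃ F : ℕ → ℝ, F = fun y => ∑ n ∈ odds y, f n := ⟨_, rfl⟩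
  have hF0 : F 0 = 0 := by rw [hFd]; simp [odds]
  have hFs : ∀ y, ((F (y + 1) : ℝ) : ℂ) = F y + if (y + 1) % 2 = 1 then (f (y + 1) : ℂ) else 0 := by
    intro y
    have h := odds_succ (fun n => (f n : ℂ)) y
    rw [hFd]
    push_cast
    exact h
  have key : ∀ M : ℕ, S2 f M α = F M * ee (α * (M : ℝ) ^ 2) -
      ∑ n ∈ range M, (F n : ℂ) * (ee (α * ((n : ℝ) + 1) ^ 2) - ee (α * (n : ℝ) ^ 2)) := by
    intro M
    induction M with
    | zero =>
      rw [hF0]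
      simp [S2, odds]
    | succ M ih =>
      have h1 : S2 f (M + 1) α = S2 f M α +
          if (M + 1) % 2 = 1 then (f (M + 1) : ℂ) * ee (α * ((M + 1 : ℕ) : ℝ) ^ 2) else 0 := by
        unfold S2
        exact odds_succ (fun n => (f n : ℂ) * ee (α * (n : ℝ) ^ 2)) M
      rw [h1, ih, Finset.sum_range_succ, hFs]
      push_cast
      split_ifs
      · ring
      · ring
  have hn : ∀ n : ℕ, ‖ee (α * ((n : ℝ) + 1) ^ 2) - ee (α * (n : ℝ) ^ 2)‖ ≤
      2 * Real.pi * |α| * (2 * n + 1) := by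
    intro n
    have h1 : ee (α * ((n : ℝ) + 1) ^ 2) - ee (α * (n : ℝ) ^ 2) =
        ee (α * (n : ℝ) ^ 2) * (ee (α * (2 * n + 1)) - 1) := by
      rw [show α * ((n : ℝ) + 1) ^ 2 = α * (n : ℝ) ^ 2 + α * (2 * n + 1) by ring, ee_add]
      ring
    rw [h1, norm_mul, norm_ee, one_mul]
    refine (norm_ee_sub _).trans (le_of_eq ?_)
    rw [abs_mul, abs_of_nonneg (by positivity : (0 : ℝ) ≤ 2 * (n : ℝ) + 1)]
    ring
  have hb : ∀ y ≤ N, ‖((F y : ℝ) : ℂ)‖ ≤ E := by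
    intro y hy
    rw [Complex.norm_real, Real.norm_eq_abs, hFd]
    exact hF y hy
  have hsum : ∀ M : ℕ, ∑ n ∈ range M, (2 * (n : ℝ) + 1) = (M : ℝ) ^ 2 := by
    intro M
    induction M with
    | zero => simp
    | succ M ih =>
      rw [Finset.sum_range_succ, ih]
      push_cast
      ring
  rw [key N]
  calc ‖(F N : ℂ) * ee (α * (N : ℝ) ^ 2) -
        ∑ n ∈ range N, (F n : ℂ) * (ee (α * ((n : ℝ) + 1) ^ 2) - ee (α * (n : ℝ) ^ 2))‖
      ≤ ‖(F N : ℂ) * ee (α * (N : ℝ) ^ 2)‖ +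
        ‖∑ n ∈ range N, (F n : ℂ) * (ee (α * ((n : ℝ) + 1) ^ 2) - ee (α * (n : ℝ) ^ 2))‖ :=
        norm_sub_le _ _
    _ ≤ E + ∑ n ∈ range N, E * (2 * Real.pi * |α| * (2 * n + 1)) := by
        refine add_le_add ?_ ((norm_sum_le _ _).trans (Finset.sum_le_sum fun n hn' => ?_))
        · rw [norm_mul, norm_ee, mul_one]
          exact hb N le_rfl
        · rw [norm_mul]
          exact mul_le_mul (hb n (Finset.mem_range.1 hn').le) (hn n) (norm_nonneg _) hE
    _ = E * (1 + 2 * Real.pi * |α| * (N : ℝ) ^ 2) := by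
        rw [← Finset.mul_sum, ← Finset.mul_sum, hsum]
        ring

end Pool.Agent.L0h83.QE
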